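import Pool.Agent.H38.O1.N3

set_option autoImplicit false

/-!
End game (helpers 12, 63, 55): if `th(a, b)` fixes `a` and `b` for all `a, b` then `x ↦ T_x` is a
homomorphism, so a simple automorphic loop with this property is commutative or associative.
-/

namespace ALoop

open Equiv

variable {Q : Type*} {G : Subgroup (Perm Q)} {L : Q → Perm Q} {J : Perm Q} {e : Q}

/-- `a(x, y) = L_(x y)⁻¹ L_x L_y` -/
def Ay (L : Q → Perm Q) (x y : Q) : Perm Q := (L (L x y))⁻¹ * L x * L y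

namespace AL0

theorem Ay_mem (h : AL0 G L J e) (x y : Q) : Ay L x y ∈ G :=
  G.mul_mem (G.mul_mem (G.inv_mem (h.memL _)) (h.memL _)) (h.memL _)

theorem Ay_e (h : AL0 G L J e) (x y : Q) : Ay L x y e = e := by
  unfold Ay
  simp only [Perm.mul_apply]
  rw [h.Le, Perm.inv_eq_iff_eq, h.Le]

theorem Ay_x (h : AL0 G L J e) (x y : Q) : Ay L x y x = x := by
  unfold Ay
  simp only [Perm.mul_apply]
  rw [h.flex', Perm.inv_eq_iff_eq]

theorem Ay_y (h : AL0 G L J e) (k1 : ∀ a b, Th L J a b b = b) (x y : Q) : Ay L x y y = y := by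
  have h1 := k1 x y
  unfold Th at h1
  simp only [Perm.mul_apply] at h1
  rw [h.Rt_app, Perm.inv_eq_iff_eq, Perm.inv_eq_iff_eq, h.Rt_app] at h1
  unfold Ay
  simp only [Perm.mul_apply]
  rw [Perm.inv_eq_iff_eq, h1]

theorem Ay_mul (x y : Q) : L x * L y = L (L x y) * Ay L x y := by
  unfold Ay; group

theorem Ay_xy (h : AL0 G L J e) (k1 : ∀ a b, Th L J a b b = b) (x y : Q) :
    Ay L x y (L x y) = L x y := by
  rw [h.aut (h.Ay_mem x y) (h.Ay_e x y), h.Ay_x, h.Ay_y k1]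

theorem Ay_conj (h : AL0 G L J e) {g : Perm Q} (hg : g ∈ G) (he : g e = e) (x y : Q) :
    g * Ay L x y * g⁻¹ = Ay L (g x) (g y) := by
  have h1 := h.equi g hg he x
  have h2 := h.equi g hg he y
  have h3 := h.equi g hg he (L x y)
  rw [h.aut hg he] at h3
  unfold Ay
  rw [← h3, ← h1, ← h2]; group

theorem Th_conj (h : AL0 G L J e) {g : Perm Q} (hg : g ∈ G) (he : g e = e) (x y : Q) :
    g * Th L J x y * g⁻¹ = Th L J (g x) (g y) := by
  have h1 := h.equi g hg he x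
  have h2 := h.equi g hg he (J y)
  have h4 := h.comJ g hg he
  have h5 : g (J y) = J (g y) := by
    have := congrArg (fun p : Perm Q => p y) h4
    simpa only [Perm.mul_apply] using this
  rw [h5] at h2
  have h4' : g⁻¹ * J = J * g⁻¹ := by
    rw [inv_mul_eq_iff_eq_mul]
    calc J = J * g * g⁻¹ := by group
      _ = g * J * g⁻¹ := by rw [h4]
      _ = g * (J * g⁻¹) := by group
  have h6 : g * Rt L J y * g⁻¹ = Rt L J (g y) := by
    unfold Rt
    rw [← h2]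
    calc g * (J * L (J y) * J) * g⁻¹ = (g * J) * L (J y) * (J * g⁻¹) := by group
      _ = (J * g) * L (J y) * (g⁻¹ * J) := by rw [h4, h4']
      _ = J * (g * L (J y) * g⁻¹) * J := by group
  unfold Th
  rw [← h1, ← h6]; group

/-- inverse property -/
theorem RRJ1 (h : AL0 G L J e) (k1 : ∀ a b, Th L J a b b = b) (b : Q) :
    Rt L J b * Rt L J (J b) = 1 := by
  ext a
  have h1 := h.fixJ (h.Th_mem a b) (h.Th_e a b) (k1 a b)
  unfold Th at h1
  simp only [Perm.mul_apply] at h1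
  rw [h.Rt_app, h.JL, h.Le, Perm.inv_eq_iff_eq, Perm.inv_eq_iff_eq, ← h.Rt_app (J b) a] at h1
  rw [Perm.mul_apply, Perm.one_apply, ← h1]

theorem LJ1 (h : AL0 G L J e) (k1 : ∀ a b, Th L J a b b = b) (b : Q) : L (J b) = (L b)⁻¹ := by
  have h1 := h.RRJ1 k1 b
  have h2 : L (J b) * L b = 1 := by
    have h3 : J * (Rt L J b * Rt L J (J b)) * J = L (J b) * L b := by
      have h4 := h.JRJ b
      have h5 := h.JRJ (J b)
      rw [h.JJ] at h5
      rw [← h4, ← h5]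
      calc J * (Rt L J b * Rt L J (J b)) * J = J * Rt L J b * 1 * Rt L J (J b) * J := by group
        _ = J * Rt L J b * (J * J) * Rt L J (J b) * J := by rw [h.JJ1]
        _ = J * Rt L J b * J * (J * Rt L J (J b) * J) := by group
    rw [← h3, h1, mul_one, h.JJ1]
  exact eq_inv_of_mul_eq_one_left h2

/-- `th(a, b)` commutes with `T_b` and `T_a` -/
theorem anti (h : AL0 G L J e) (k1 : ∀ a b, Th L J a b b = b) (a b : Q) :
    Th L J b a = (Th L J a b)⁻¹ := by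
  have key : ∀ x y, Th L J x (J y) = (Th L J x y)⁻¹ := by
    intro x y
    have h1 := h.K1 x y
    have h2 := h.Tx_cen y _ (h.Th_mem x y) (h.Th_e x y) (k1 x y)
    rw [← h2] at h1
    have h3 := mul_left_cancel h1
    rw [← h3, inv_inv]
  have h4 : Th L J b (J a) = Th L J a b := by
    have h1 := h.K2 a b
    have h2 := h.Tx_cen b _ (h.Th_mem a b) (h.Th_e a b) (k1 a b)
    rw [← h2] at h1
    exact mul_left_cancel h1
  have h5 := key b (J a)
  rw [h.JJ, h4] at h5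
  exact h5

/-- `a(y⁻¹, x⁻¹) = a(x, y)⁻¹` -/
theorem Ay_JJ (h : AL0 G L J e) (k1 : ∀ a b, Th L J a b b = b) (x y : Q) :
    Ay L (J y) (J x) = (Ay L x y)⁻¹ := by
  have h1 : L (J y) (J x) = J (L x y) := (h.aaip x y).symm
  have h2 := h.comL (h.Ay_mem x y) (h.Ay_e x y) (h.Ay_xy k1 x y)
  have h3 := Ay_mul (L := L) x y
  have h4 : Ay L (J y) (J x) = L (L x y) * (L x * L y)⁻¹ := by
    unfold Ay
    rw [h1, h.LJ1 k1, h.LJ1 k1, h.LJ1 k1]; group
  rw [h4, h3]
  have h5 : (L (L x y) * Ay L x y)⁻¹ = (L (L x y))⁻¹ * (Ay L x y)⁻¹ := by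
    rw [← h2]; group
  rw [h5]; group

/-- `R_(y z) = R_z R_y a(y, z)` -/
theorem R_mul (h : AL0 G L J e) (k1 : ∀ a b, Th L J a b b = b) (y z : Q) :
    Rt L J (L y z) = Rt L J z * Rt L J y * Ay L y z := by
  have h1 := h.Ay_JJ k1 y z
  have h2 := h.comJ _ (h.Ay_mem (J z) (J y)) (h.Ay_e (J z) (J y))
  have h3 : Ay L (J z) (J y) = (Rt L J (L y z))⁻¹ * Rt L J z * Rt L J y := by
    have h4 : Ay L (J z) (J y) = J * Ay L (J z) (J y) * J := by
      rw [← h2, mul_assoc, h.JJ1, mul_one]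
    rw [h4]
    unfold Ay Rt
    rw [← h.aaip y z]
    simp only [mul_inv_rev, h.Jinv]
    calc J * ((L (J (L y z)))⁻¹ * L (J z) * L (J y)) * J =
          J * (L (J (L y z)))⁻¹ * 1 * L (J z) * 1 * L (J y) * J := by group
      _ = J * (L (J (L y z)))⁻¹ * (J * J) * L (J z) * (J * J) * L (J y) * J := by rw [h.JJ1]
      _ = _ := by group
  rw [h1] at h3
  have h5 : (Ay L y z)⁻¹⁻¹ = ((Rt L J (L y z))⁻¹ * Rt L J z * Rt L J y)⁻¹ := by rw [h3]
  have h6 : Rt L J (L y z) * (Ay L y z)⁻¹ = Rt L J z * Rt L J y := by rw [h3]; group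
  rw [← h6]; group

/-- three forms of `x (y z)` -/
theorem three (h : AL0 G L J e) (k1 : ∀ a b, Th L J a b b = b) (k2 : ∀ a b, Th L J a b a = a)
    (x y z : Q) : L x (L y z) = Ay L x y (L (L x y) z) ∧ L x (L y z) = Th L J x z (L (L x y) z) ∧
      L x (L y z) = Ay L y z (L (L x y) z) := by
  refine ⟨?_, ?_, ?_⟩
  · have h2 := h.comL (h.Ay_mem x y) (h.Ay_e x y) (h.Ay_xy k1 x y)
    have h3 := Ay_mul (L := L) x y
    rw [← h2] at h3
    have h4 := congrArg (fun p : Perm Q => p z) h3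
    simpa only [Perm.mul_apply] using h4
  · have h2 := h.comL (h.Th_mem x z) (h.Th_e x z) (k2 x z)
    have h3 := h.comR (h.Th_mem x z) (h.Th_e x z) (k1 x z)
    have h4 : L x * Rt L J z = Th L J x z * (Rt L J z * L x) := by
      calc L x * Rt L J z = Rt L J z * (L x * Th L J x z) := by unfold Th; group
        _ = Rt L J z * (Th L J x z * L x) := by rw [h2]
        _ = (Rt L J z * Th L J x z) * L x := by group
        _ = (Th L J x z * Rt L J z) * L x := by rw [h3]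
        _ = _ := by group
    have h5 := congrArg (fun p : Perm Q => p y) h4
    simp only [Perm.mul_apply] at h5
    rw [h.Rt_app, h.Rt_app] at h5
    exact h5
  · have h2 := h.comR (h.Ay_mem y z) (h.Ay_e y z) (h.Ay_x y z)
    have h3 := h.comR (h.Ay_mem y z) (h.Ay_e y z) (h.Ay_y k1 y z)
    have h4 : Rt L J (L y z) = Ay L y z * (Rt L J z * Rt L J y) := by
      rw [h.R_mul k1]
      calc Rt L J z * Rt L J y * Ay L y z = Rt L J z * (Rt L J y * Ay L y z) := by group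
        _ = Rt L J z * (Ay L y z * Rt L J y) := by rw [h2]
        _ = (Rt L J z * Ay L y z) * Rt L J y := by group
        _ = (Ay L y z * Rt L J z) * Rt L J y := by rw [h3]
        _ = _ := by group
    have h5 := congrArg (fun p : Perm Q => p x) h4
    simp only [Perm.mul_apply] at h5
    rw [h.Rt_app, h.Rt_app, h.Rt_app] at h5
    exact h5

theorem Tx_app (h : AL0 G L J e) (x y : Q) : Tx L J x (L y x) = L x y := by
  unfold Tx
  rw [Perm.mul_apply, ← h.Rt_app x y, inv_apply']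

theorem Txi_mem (h : AL0 G L J e) (x : Q) : (Tx L J x)⁻¹ ∈ G := G.inv_mem (h.Tx_mem x)

theorem Txi_e (h : AL0 G L J e) (x : Q) : (Tx L J x)⁻¹ e = e := by
  rw [Perm.inv_eq_iff_eq, h.Tx_e]

theorem Txi_x (h : AL0 G L J e) (x : Q) : (Tx L J x)⁻¹ x = x := by
  rw [Perm.inv_eq_iff_eq, h.Tx_x]

/-- an inner mapping fixing `x` is not changed by conjugation with `T_x⁻¹` -/
theorem Txi_conj (h : AL0 G L J e) {x : Q} {g : Perm Q} (hg : g ∈ G) (he : g e = e)
    (hx : g x = x) : (Tx L J x)⁻¹ * g * (Tx L J x)⁻¹⁻¹ = g := by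
  have h1 := h.Tx_cen x g hg he hx
  rw [inv_inv]
  calc (Tx L J x)⁻¹ * g * Tx L J x = (Tx L J x)⁻¹ * (g * Tx L J x) := by group
    _ = (Tx L J x)⁻¹ * (Tx L J x * g) := by rw [h1]
    _ = g := by group

theorem Tx_conj' (h : AL0 G L J e) {x : Q} {g : Perm Q} (hg : g ∈ G) (he : g e = e)
    (hx : g x = x) : Tx L J x * g * (Tx L J x)⁻¹ = g := by
  rw [h.Tx_cen x g hg he hx]; group

/-- `x y = y (T_y⁻¹ x)` -/
theorem swap1 (h : AL0 G L J e) (x y : Q) : L y ((Tx L J y)⁻¹ x) = L x y := by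
  have h1 := h.Tx_app y ((Tx L J y)⁻¹ x)
  have h2 : Tx L J y (L ((Tx L J y)⁻¹ x) y) = L x y := by
    rw [h.aut (h.Tx_mem y) (h.Tx_e y), h.Tx_x, apply_inv']
  rw [← h1, h2]

/-- `x y = (T_x y) x` -/
theorem swap2 (h : AL0 G L J e) (x y : Q) : L (Tx L J x y) x = L x y := by
  have h1 := h.swap1 (Tx L J x y) x
  rw [inv_apply'] at h1
  exact h1.symm

/-- `a(x, z) = a(z, x)⁻¹` -/
theorem Ay_anti (h : AL0 G L J e) (k1 : ∀ a b, Th L J a b b = b) (k2 : ∀ a b, Th L J a b a = a)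
    (x z : Q) : Ay L x z = (Ay L z x)⁻¹ := by
  ext g
  obtain ⟨y, hy⟩ : ∃ y, y = (L x)⁻¹ ((Rt L J z)⁻¹ g) := ⟨_, rfl⟩
  have hg : L (L x y) z = g := by
    rw [hy, apply_inv', ← h.Rt_app z, apply_inv']
  -- `(y, T_y⁻¹ x, z)`
  have e1 : Ay L y x g = Th L J y z g := by
    obtain ⟨b1, b2, b3⟩ := h.three k1 k2 y ((Tx L J y)⁻¹ x) z
    rw [h.swap1, hg] at b1 b2
    have c1 := h.Ay_conj (h.Txi_mem y) (h.Txi_e y) y x
    rw [h.Txi_conj (h.Ay_mem y x) (h.Ay_e y x) (h.Ay_x y x), h.Txi_x] at c1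
    rw [← c1] at b1
    rw [← b1, ← b2]
  -- `(T_x y, x, z)`
  have e2 : Ay L y x g = Ay L x z g := by
    obtain ⟨b1, b2, b3⟩ := h.three k1 k2 (Tx L J x y) x z
    rw [h.swap2, hg] at b1 b3
    have c1 := h.Ay_conj (h.Tx_mem x) (h.Tx_e x) y x
    rw [h.Tx_conj' (h.Ay_mem y x) (h.Ay_e y x) (h.Ay_y k1 y x), h.Tx_x] at c1
    rw [← c1] at b1
    rw [← b1, ← b3]
  -- `(z, T_z⁻¹ x, T_z⁻¹ y)`
  have e3 : (Ay L z x)⁻¹ g = Th L J y z g := by
    obtain ⟨b1, b2, b3⟩ := h.three k1 k2 z ((Tx L J z)⁻¹ x) ((Tx L J z)⁻¹ y)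
    have d1 : L z (L ((Tx L J z)⁻¹ x) ((Tx L J z)⁻¹ y)) = g := by
      rw [← h.aut (h.Txi_mem z) (h.Txi_e z), h.swap1, hg]
    rw [d1] at b1 b2
    have c1 := h.Ay_conj (h.Txi_mem z) (h.Txi_e z) z x
    rw [h.Txi_conj (h.Ay_mem z x) (h.Ay_e z x) (h.Ay_x z x), h.Txi_x] at c1
    have c2 := h.Th_conj (h.Txi_mem z) (h.Txi_e z) z y
    rw [h.Txi_conj (h.Th_mem z y) (h.Th_e z y) (k2 z y), h.Txi_x] at c2
    rw [← c1] at b1
    rw [← c2] at b2
    rw [h.anti k1 z y]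
    have f1 : (Ay L z x)⁻¹ g = L (L z ((Tx L J z)⁻¹ x)) ((Tx L J z)⁻¹ y) := by
      rw [Perm.inv_eq_iff_eq]; exact b1
    have f2 : (Th L J z y)⁻¹ g = L (L z ((Tx L J z)⁻¹ x)) ((Tx L J z)⁻¹ y) := by
      rw [Perm.inv_eq_iff_eq]; exact b2
    rw [f1, f2]
  rw [e3, ← e1, e2]

/-- `th(x, q)⁻¹ = a(x, q)⁻¹ a(q, x)` -/
theorem Th_Ay (h : AL0 G L J e) (k1 : ∀ a b, Th L J a b b = b) (q x : Q) :
    (Th L J x q)⁻¹ = (Ay L x q)⁻¹ * Ay L q x := by
  have h1 : Tx L J q (L x q) = L q x := h.Tx_app q x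
  have h2 := h.equi (Tx L J q) (h.Tx_mem q) (h.Tx_e q) (L x q)
  rw [h1] at h2
  have h3 := Ay_mul (L := L) q x
  have h4 := Ay_mul (L := L) x q
  have h5 := h.Tx_cen q _ (h.Ay_mem x q) (h.Ay_e x q) (h.Ay_y k1 x q)
  have h6 := h.Tx_L q
  have h7 : L (L x q) = L x * L q * (Ay L x q)⁻¹ := by rw [h4]; group
  have h5' : (Ay L x q)⁻¹ * (Tx L J q)⁻¹ = (Tx L J q)⁻¹ * (Ay L x q)⁻¹ := by
    rw [← mul_inv_rev, h5, mul_inv_rev]
  have h6' : L q * (Tx L J q)⁻¹ = (Tx L J q)⁻¹ * L q := by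
    calc L q * (Tx L J q)⁻¹ = (Tx L J q)⁻¹ * (Tx L J q * L q) * (Tx L J q)⁻¹ := by group
      _ = (Tx L J q)⁻¹ * (L q * Tx L J q) * (Tx L J q)⁻¹ := by rw [h6]
      _ = _ := by group
  have h8 : L q * L x = (Tx L J q * L x * (Tx L J q)⁻¹) * L q * (Ay L x q)⁻¹ * Ay L q x := by
    rw [h3, ← h2, h7]
    calc Tx L J q * (L x * L q * (Ay L x q)⁻¹) * (Tx L J q)⁻¹ * Ay L q x =
        Tx L J q * L x * L q * ((Ay L x q)⁻¹ * (Tx L J q)⁻¹) * Ay L q x := by group
      _ = Tx L J q * L x * (L q * (Tx L J q)⁻¹) * (Ay L x q)⁻¹ * Ay L q x := by rw [h5']; group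
      _ = _ := by rw [h6']; group
  have h9 : Tx L J q * L x * (Tx L J q)⁻¹ = L q * L x * Th L J x q * (L q)⁻¹ := by
    unfold Tx Th; group
  rw [h9] at h8
  have h10 : L q * L x * 1 = L q * L x * (Th L J x q * ((Ay L x q)⁻¹ * Ay L q x)) := by
    rw [mul_one]
    calc L q * L x = L q * L x * Th L J x q * (L q)⁻¹ * L q * (Ay L x q)⁻¹ * Ay L q x := h8
      _ = _ := by group
  have h11 := mul_left_cancel h10
  rw [inv_eq_iff_mul_eq_one]
  exact h11.symm

/-- `x ↦ T_x` is a homomorphism -/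
theorem Tx_mul (h : AL0 G L J e) (k1 : ∀ a b, Th L J a b b = b) (k2 : ∀ a b, Th L J a b a = a)
    (q x : Q) : Tx L J (L q x) = Tx L J q * Tx L J x := by
  have h1 := h.Th_Ay k1 q x
  rw [h.Ay_anti k1 k2 x q, inv_inv] at h1
  have h2 : Th L J x q = (Ay L q x)⁻¹ * (Ay L q x)⁻¹ := by
    rw [← mul_inv_rev, ← h1, inv_inv]
  have h3 := h.R_mul k1 q x
  have h4 := Ay_mul (L := L) q x
  have h5 : L (L q x) = L q * L x * (Ay L q x)⁻¹ := by rw [h4]; group
  have h6 : Tx L J q * Tx L J x = L q * L x * Th L J x q * (Rt L J q)⁻¹ * (Rt L J x)⁻¹ := by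
    unfold Tx Th; group
  rw [h6, h2]
  unfold Tx
  rw [h3, h5]; group

end AL0

namespace AL

/-- the end game -/
theorem end_game (h : AL G L J e) (k1 : ∀ a b, Th L J a b b = b)
    (k2 : ∀ a b, Th L J a b a = a) : (∀ x, Rt L J x = L x) ∨ Assoc L := by
  have h0 := h.al0
  have hmul := h0.Tx_mul k1 k2
  have hTe : Tx L J e = 1 := by
    have h1 := hmul e e
    rw [h.Le] at h1
    have h2 : Tx L J e * 1 = Tx L J e * Tx L J e := by rw [mul_one]; exact h1
    exact (mul_left_cancel h2).symm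
  have hinv : ∀ g ∈ G, ∀ a b, Tx L J (g a) = Tx L J (g b) ↔ Tx L J a = Tx L J b := by
    intro g hg
    rw [h.gen] at hg
    induction hg using Subgroup.closure_induction with
    | mem g hg =>
      intro a b
      rcases hg with ⟨x, rfl⟩ | ⟨x, rfl⟩
      · rw [hmul, hmul]
        exact ⟨fun hh => mul_left_cancel hh, fun hh => by rw [hh]⟩
      · have h1 : ∀ y, (J * L x * J) y = L y (J x) := by
          intro y
          rw [h0.JLJ, h0.Rt_app]
        change Tx L J ((J * L x * J) a) = Tx L J ((J * L x * J) b) ↔ Tx L J a = Tx L J b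
        rw [h1, h1, hmul, hmul]
        exact ⟨fun hh => mul_right_cancel hh, fun hh => by rw [hh]⟩
    | one => intro a b; exact Iff.rfl
    | mul g k _ _ hg hk =>
      intro a b
      rw [Perm.mul_apply, Perm.mul_apply, hg, hk]
    | inv g _ hg =>
      intro a b
      rw [← hg, apply_inv', apply_inv']
  rcases h.prim (fun a b => Tx L J a = Tx L J b)
    ⟨fun _ => rfl, fun hh => hh.symm, fun h1 h2 => h1.trans h2⟩
    (fun g hg a b hab => (hinv g hg a b).mpr hab) with hp | hp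
  · right
    intro x y z
    apply hp
    show Tx L J (L (L x y) z) = Tx L J (L x (L y z))
    rw [hmul, hmul, hmul, hmul, mul_assoc]
  · left
    intro x
    have h1 : Tx L J x = 1 := (hp x e).trans hTe
    unfold Tx at h1
    exact (mul_inv_eq_one.mp h1).symm

end AL

end ALoop
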